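import Pool.Agent.Helper49.LC.St

/-! # LC MODULE IN3: an invertible knot is unknotted by a homeomorphism which is a limit of
Hamiltonian diffeomorphisms -/

set_option autoImplicit false

open scoped ContDiff

namespace Pool.Agent.Helper18.LC

open Pool.Agent.Helper14.LK Pool.Agent.Helper49.LC

private theorem uc {n : ℕ} {G : WW n → WW n} (hG : Continuous G) {R : ℝ}
    (h : ∀ w, R ≤ ‖w‖ → G w = w) : UniformContinuous G := by
  have h1 : HasCompactSupport (fun w => G w - w) := by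
    refine HasCompactSupport.intro (isCompact_closedBall (0 : WW n) R) fun w hw => ?_
    rw [mem_closedBall_zero_iff, not_le] at hw
    rw [h w hw.le, sub_self]
  have h2 : UniformContinuous (fun w => G w - w) :=
    h1.uniformContinuous_of_continuous (hG.sub continuous_id)
  have h3 := h2.add uniformContinuous_id
  have e : (fun w => G w) = (fun w => G w - w) + id := by
    funext w
    simp
  show UniformContinuous (fun w => G w)
  rw [e]
  exact h3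

theorem hIN3 (hDAT : StDAT) (hIP2 : StIP2) (hIP3 : StIP3) (hSWS : StSWS) (hGRP : StGRP)
    (hEQV : StEQV) : StIN3 := by
  intro n hn L hL
  obtain ⟨α, β, R, a₀, hLα, hα, hβ, ha₀, hEq⟩ := hL
  obtain ⟨-, -, g3, g4, -, g6, -⟩ := hGRP
  obtain ⟨-, -, -, -, -, e6, -, -⟩ := hEQV
  have hR := hα.pos
  obtain ⟨a, f, f', g, g', ha, hf, hfP, hg, hgP⟩ := hDAT n hn α β R hα hβ ⟨a₀, ha₀, hEq⟩ (1 / 2)
    (by norm_num) (by norm_num)
  obtain ⟨F, Fi, hF, hFc, hFic, hFp, hFo, hFs⟩ := hIP2 n a (1 / 2) R 0 f f' hR (by norm_num)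
    (by norm_num) ha hf
  obtain ⟨G, Gi, hG, hGc, hGic, hGp, hGo, hGs⟩ := hIP2 n a (1 / 2) R 1 g g' hR (by norm_num)
    (by norm_num) ha hg
  have hfSD := (g6 n _ _ f f' hf).1
  have hgSD := (g6 n _ _ g g' hg).1
  have hset := hSWS n α β R hα hβ a (1 / 2) (by norm_num) (by norm_num) ha f f' g g' F Fi G Gi
    hfSD.left hfSD.right hgSD.left hgSD.right hfP hgP hF hG
  set p : WW n := ((1 - (1 / 2 : ℝ))⁻¹ • a, 0) with hp
  set Rb : ℝ := (1 - (1 / 2 : ℝ))⁻¹ * ‖a‖ + ‖a‖ + 2 * R + 1 with hRb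
  refine ⟨fun w => Gi (F w), fun w => Fi (G w), p, Rb, hGic.comp hFc, hFic.comp hGc, ?_, ?_, ?_,
    ?_, ?_, ?_⟩
  · intro w
    show Fi (G (Gi (F w))) = w
    rw [hG.right, hF.left]
  · intro w
    show Gi (F (Fi (G w))) = w
    rw [hF.right, hG.left]
  · intro w hw
    show Gi (F w) = w
    rw [(hFo w hw).1, (hGo w hw).2]
  · intro w hw
    have hFw : F w ≠ p := by
      intro h
      apply hw
      have h1 := congrArg Fi (h.trans hFp.symm)
      rwa [hF.left, hF.left] at h1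
    obtain ⟨a1, -, a3, -⟩ := hFs w hw
    obtain ⟨-, b2, -, b4⟩ := hGs (F w) hFw
    refine ⟨b2.comp w a1, fun u v => ?_⟩
    have h1 : DifferentiableAt ℝ F w := a1.differentiableAt (by simp)
    have h2 : DifferentiableAt ℝ Gi (F w) := b2.differentiableAt (by simp)
    have h3 : fderiv ℝ (fun w => Gi (F w)) w = (fderiv ℝ Gi (F w)).comp (fderiv ℝ F w) :=
      fderiv_comp w h2 h1
    rw [h3]
    show om (fderiv ℝ Gi (F w) (fderiv ℝ F w u)) (fderiv ℝ Gi (F w) (fderiv ℝ F w v)) = om u v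
    rw [b4, a3]
  · rw [← hLα, ← hset, Set.image_image]
  · intro ε hε
    have ucG := uc hGic (fun w hw => (hGo w hw).2)
    have ucF := uc hFic (fun w hw => (hFo w hw).2)
    rw [Metric.uniformContinuous_iff] at ucG ucF
    obtain ⟨d1, hd1, hu1⟩ := ucG (ε / 2) (half_pos hε)
    obtain ⟨d2, hd2, hu2⟩ := ucF (ε / 2) (half_pos hε)
    have hδ : 0 < min (ε / 2) (min d1 d2) := lt_min (half_pos hε) (lt_min hd1 hd2)
    obtain ⟨φ₁, ψ₁, hHB1, hφ1, hψ1⟩ := hIP3 n a (1 / 2) R 0 f f' F Fi hR (by norm_num)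
      (by norm_num) ha hf hF _ hδ
    obtain ⟨φ₂, ψ₂, hHB2, hφ2, hψ2⟩ := hIP3 n a (1 / 2) R 1 g g' G Gi hR (by norm_num)
      (by norm_num) ha hg hG _ hδ
    have hHB := g3 n 0 Rb ψ₂ φ₂ φ₁ ψ₁ (g4 n 0 Rb φ₂ ψ₂ hHB2) hHB1
    have hSD := (g6 n _ _ _ _ hHB).1
    obtain ⟨H, φ, hH, hH0, hφ⟩ := e6 n (by omega) Rb _ _ hHB
    have m1 : min (ε / 2) (min d1 d2) ≤ ε / 2 := min_le_left _ _
    have m2 : min (ε / 2) (min d1 d2) ≤ d1 := (min_le_right _ _).trans (min_le_left _ _)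
    have m3 : min (ε / 2) (min d1 d2) ≤ d2 := (min_le_right _ _).trans (min_le_right _ _)
    refine ⟨H, φ, hH, hH0, ?_, ?_⟩
    · intro w
      rw [hφ]
      show ‖ψ₂ (φ₁ w) - Gi (F w)‖ < ε
      have h1 : ‖Gi (φ₁ w) - Gi (F w)‖ < ε / 2 := by
        rw [← dist_eq_norm]
        apply hu1
        rw [dist_eq_norm]
        exact (hφ1 w).trans_le m2
      have h2 := hψ2 (φ₁ w)
      calc ‖ψ₂ (φ₁ w) - Gi (F w)‖ = ‖(ψ₂ (φ₁ w) - Gi (φ₁ w)) + (Gi (φ₁ w) - Gi (F w))‖ := by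
            congr 1; abel
        _ ≤ ‖ψ₂ (φ₁ w) - Gi (φ₁ w)‖ + ‖Gi (φ₁ w) - Gi (F w)‖ := norm_add_le _ _
        _ < ε := by linarith
    · intro w
      rw [hφ]
      show ‖Fi (G (ψ₂ (φ₁ w))) - w‖ < ε
      have hw : ψ₁ (φ₂ (ψ₂ (φ₁ w))) = w := hSD.left w
      obtain ⟨u, hu⟩ : ∃ u, u = ψ₂ (φ₁ w) := ⟨_, rfl⟩
      rw [← hu] at hw ⊢
      have h1 : ‖Fi (G u) - Fi (φ₂ u)‖ < ε / 2 := by
        rw [← dist_eq_norm]
        apply hu2
        rw [dist_comm, dist_eq_norm]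
        exact (hφ2 u).trans_le m3
      have h2 := hψ1 (φ₂ u)
      rw [hw, norm_sub_rev] at h2
      calc ‖Fi (G u) - w‖ = ‖(Fi (G u) - Fi (φ₂ u)) + (Fi (φ₂ u) - w)‖ := by
            congr 1; abel
        _ ≤ ‖Fi (G u) - Fi (φ₂ u)‖ + ‖Fi (φ₂ u) - w‖ := norm_add_le _ _
        _ < ε := by linarith

end Pool.Agent.Helper18.LC
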